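import Pool.Agent.H23.UVD.Targets

/-!
# MP_44217d_ag: Q1 in degree at most `d` as the growth of one sequence of schemes
-/

open TensorProduct Module Filter Topology MvPolynomial

namespace Pool.Agent.H74.UVD

open Pool.Agent.H23.UVD
open Pool.Agent.H15.Defect Pool.Agent.H12.Defect Pool.Agent.H14.MM Pool.Agent.H15.CX

universe u

/-- The growth rate decreases along surjective homomorphisms. -/
theorem Lam_le_of_surjective {k : Type u} [Field k] [IsAlgClosed k] {A B : Type u} [CommRing A]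
    [Algebra k A] [Module.Finite k A] [Nontrivial A] [CommRing B] [Algebra k B]
    [Module.Finite k B] (f : A →ₐ[k] B) (hf : Function.Surjective f) : Lam k B ≤ Lam k A :=
  Lam_le_of_bd Lam_nonneg ((bd_of_Lam_le (le_refl (Lam k A))).of_surjective f hf)

theorem finrank_quot_ker {k : Type u} [Field k] {P A : Type u} [CommRing P] [Algebra k P]
    [CommRing A] [Algebra k A] (f : P →ₐ[k] A) (hf : Function.Surjective f) :
    finrank k (P ⧸ RingHom.ker f) = finrank k A :=
  LinearEquiv.finrank_eq (Ideal.quotientKerAlgEquivOfSurjective hf).toLinearEquiv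

theorem ker_ne_top {k : Type u} [Field k] {P A : Type u} [CommRing P] [Algebra k P]
    [CommRing A] [Algebra k A] [Nontrivial A] (f : P →ₐ[k] A) : RingHom.ker f ≠ ⊤ :=
  RingHom.ker_ne_top f

theorem pf_Q1D (k : Type u) [Field k] [IsAlgClosed k] (hLIM : T_LIM k) (hPD : T_PD k)
    (hPDF : T_PDF k) : T_Q1D k := by
  intro d hd
  have : Module.Finite k (PD k d) := hPDF d
  set V : Set (Ideal (PD k d)) := {I | I ≠ ⊤ ∧ finrank k (PD k d ⧸ I) ≤ d} with hV
  have : Nonempty (Fin d) := ⟨⟨0, hd⟩⟩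
  obtain ⟨f₀, hf₀⟩ := hPD d (Fin d → k) (by simp)
  have hI₀ : RingHom.ker f₀ ∈ V := by
    refine ⟨ker_ne_top f₀, ?_⟩
    rw [finrank_quot_ker f₀ hf₀]
    simp
  have hne : V.Nonempty := ⟨_, hI₀⟩
  obtain ⟨-, -, hbdd, hlim⟩ := hLIM (PD k d) V hne (fun I hI => hI.1)
  have hge : (d : ℝ) ≤ LS k V := by
    have h1 : Lam k (PD k d ⧸ RingHom.ker f₀) ≤ LS k V := le_csSup hbdd ⟨_, hI₀, rfl⟩
    have h2 := finrank_le_Lam (k := k) (A := PD k d ⧸ RingHom.ker f₀)
    rw [finrank_quot_ker f₀ hf₀, finrank_fin_fun] at h2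
    exact h2.trans h1
  constructor
  · intro h
    have hle : LS k V ≤ d := by
      refine csSup_le (hne.image _) ?_
      rintro _ ⟨I, hI, rfl⟩
      have : Nontrivial (PD k d ⧸ I) := Ideal.Quotient.nontrivial_iff.2 hI.1
      exact h (PD k d ⧸ I) hI.2
    rw [le_antisymm hle hge] at hlim
    exact hlim
  · intro h A _ _ _ _ hA
    have hLS : LS k V = d := tendsto_nhds_unique hlim h
    obtain ⟨f, hf⟩ := hPD d A hA
    have hI : RingHom.ker f ∈ V := by
      refine ⟨ker_ne_top f, ?_⟩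
      rw [finrank_quot_ker f hf]
      exact hA
    have : Nontrivial (PD k d ⧸ RingHom.ker f) := Ideal.Quotient.nontrivial_iff.2 hI.1
    have h1 : Lam k (PD k d ⧸ RingHom.ker f) ≤ LS k V := le_csSup hbdd ⟨_, hI, rfl⟩
    have h2 : Lam k A ≤ Lam k (PD k d ⧸ RingHom.ker f) :=
      Lam_le_of_surjective (Ideal.quotientKerAlgEquivOfSurjective hf).toAlgHom
        (Ideal.quotientKerAlgEquivOfSurjective hf).surjective
    rw [hLS] at h1
    exact h2.trans h1

end Pool.Agent.H74.UVD
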